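import Pool.Agent.WR4.Stmts

/-!
Row SHR of squad WR4: the atypical pairs.
-/

set_option autoImplicit false

namespace Pool.Agent.WR4.H17

open Pool.Agent.WIR Pool.Agent.WR2 Pool.Agent.WR3
open scoped BigOperators ENNReal Topology
open Filter

theorem mn_pow (n : ℕ) : mn n ^ 6 ≤ n := by
  have h := Nat.findGreatest_spec (P := fun m => m ^ 6 ≤ n) (m := 0) (n := n)
    (Nat.zero_le n) (by simp)
  exact h

theorem lt_mn (n : ℕ) : n < (mn n + 1) ^ 6 := by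
  by_contra hcon
  have hcon' : (mn n + 1) ^ 6 ≤ n := not_lt.1 hcon
  have h1 : mn n + 1 ≤ n := le_trans (Nat.le_self_pow (by norm_num) _) hcon'
  exact Nat.findGreatest_is_greatest (P := fun m => m ^ 6 ≤ n) (Nat.lt_succ_self _) h1 hcon'

theorem mn_ge (M n : ℕ) (h : M ^ 6 ≤ n) : M ≤ mn n := by
  have h1 : M ≤ n := le_trans (Nat.le_self_pow (by norm_num) _) h
  exact Nat.le_findGreatest (P := fun m => m ^ 6 ≤ n) h1 h

theorem big_pow (n τ : ℕ) (hn : 1 ≤ n) (h : 256 * n < τ) :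
    2 ^ (8 * n + 8) * 243 ^ τ ≤ 256 ^ τ := by
  have h0 : 2 * 243 ^ 16 ≤ 256 ^ 16 := by norm_num
  have h1 : (2 * 243 ^ 16) ^ (16 * n) ≤ (256 ^ 16) ^ (16 * n) := Nat.pow_le_pow_left h0 _
  have h2 : 2 ^ (16 * n) * 243 ^ (256 * n) ≤ 256 ^ (256 * n) := by
    have e1 : (2 * 243 ^ 16) ^ (16 * n) = 2 ^ (16 * n) * 243 ^ (256 * n) := by
      rw [mul_pow, ← pow_mul]; congr 2; ring
    have e2 : (256 ^ 16) ^ (16 * n) = 256 ^ (256 * n) := by
      rw [← pow_mul]; congr 1; ring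
    rw [← e1, ← e2]; exact h1
  obtain ⟨k, rfl⟩ : ∃ k, τ = 256 * n + k := ⟨τ - 256 * n, by omega⟩
  have h3 : 243 ^ k ≤ 256 ^ k := Nat.pow_le_pow_left (by norm_num) _
  have h4 : 2 ^ (8 * n + 8) ≤ 2 ^ (16 * n) := Nat.pow_le_pow_right (by norm_num) (by omega)
  calc 2 ^ (8 * n + 8) * 243 ^ (256 * n + k)
      ≤ 2 ^ (16 * n) * 243 ^ (256 * n + k) := Nat.mul_le_mul_right _ h4
    _ = (2 ^ (16 * n) * 243 ^ (256 * n)) * 243 ^ k := by rw [pow_add]; ring
    _ ≤ 256 ^ (256 * n) * 256 ^ k := Nat.mul_le_mul h2 h3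
    _ = 256 ^ (256 * n + k) := by rw [pow_add]

theorem cases_pair (n m J τ l : ℕ) (x : ℝ) (hx1 : (2 : ℝ) ^ n ≤ x) (hx2 : x < 2 ^ (n + 1))
    (hn : 1 ≤ n) (hm : m ^ 6 ≤ n) (hmJ : m ^ 4 + 3 * J < n)
    (h1 : (2 : ℝ) ^ τ ≤ x * 3 ^ l) (h2 : ¬ (2 : ℝ) ^ τ ≤ (x / 2 ^ J) * 3 ^ l)
    (h3 : ¬ TP m τ l) :
    (τ ≤ 256 * n ∧ (m : ℤ) ^ 4 < |2 * (l : ℤ) - τ|) ∨ (n ≤ τ + J ∧ 5 * τ < 8 * l) := by
  have h4r : (2 : ℝ) ^ n * 3 ^ l < 2 ^ (τ + J) := by
    have a1 : (x / 2 ^ J) * 3 ^ l < (2 : ℝ) ^ τ := not_le.1 h2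
    have a2 : (0 : ℝ) < 2 ^ J := by positivity
    have a3 : x * 3 ^ l < (2 : ℝ) ^ τ * 2 ^ J := by
      have a4 := mul_lt_mul_of_pos_right a1 a2
      have a5 : x / 2 ^ J * 3 ^ l * 2 ^ J = x * 3 ^ l := by field_simp
      rwa [a5] at a4
    calc (2 : ℝ) ^ n * 3 ^ l ≤ x * 3 ^ l :=
          mul_le_mul_of_nonneg_right hx1 (by positivity)
      _ < (2 : ℝ) ^ τ * 2 ^ J := a3
      _ = 2 ^ (τ + J) := by rw [pow_add]
  have h4 : 2 ^ n * 3 ^ l < 2 ^ (τ + J) := by exact_mod_cast h4r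
  have h5 : n ≤ τ + J := by
    have b1 : 2 ^ n ≤ 2 ^ n * 3 ^ l := Nat.le_mul_of_pos_right _ (by positivity)
    have b2 : 2 ^ n < 2 ^ (τ + J) := lt_of_le_of_lt b1 h4
    exact ((Nat.pow_lt_pow_iff_right (by norm_num)).1 b2).le
  by_cases hC : 5 * τ < 8 * l
  · exact Or.inr ⟨h5, hC⟩
  left
  have hC' : 8 * l ≤ 5 * τ := not_lt.1 hC
  have hτ : τ ≤ 256 * n := by
    by_contra hcon
    have hcon' : 256 * n < τ := not_le.1 hcon
    have c1r : (2 : ℝ) ^ τ < 2 ^ (n + 1) * 3 ^ l :=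
      lt_of_le_of_lt h1 (mul_lt_mul_of_pos_right hx2 (by positivity))
    have c1 : 2 ^ τ < 2 ^ (n + 1) * 3 ^ l := by exact_mod_cast c1r
    have c2 : (2 ^ τ) ^ 8 < (2 ^ (n + 1) * 3 ^ l) ^ 8 := Nat.pow_lt_pow_left c1 (by norm_num)
    have c3 : (2 ^ τ) ^ 8 = 256 ^ τ := by
      rw [← pow_mul, mul_comm, pow_mul]; norm_num
    have c4 : (2 ^ (n + 1) * 3 ^ l) ^ 8 = 2 ^ (8 * n + 8) * 3 ^ (8 * l) := by
      rw [mul_pow, ← pow_mul, ← pow_mul]; congr 2 <;> ring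
    have c5 : 3 ^ (8 * l) ≤ 3 ^ (5 * τ) := Nat.pow_le_pow_right (by norm_num) hC'
    have c6 : 3 ^ (5 * τ) = 243 ^ τ := by rw [pow_mul]; norm_num
    have c7 := big_pow n τ hn hcon'
    rw [c3, c4] at c2
    have c8 : 2 ^ (8 * n + 8) * 3 ^ (8 * l) ≤ 2 ^ (8 * n + 8) * 243 ^ τ := by
      rw [← c6]; exact Nat.mul_le_mul_left _ c5
    omega
  refine ⟨hτ, ?_⟩
  by_contra hA
  have hA' : |2 * (l : ℤ) - τ| ≤ (m : ℤ) ^ 4 := not_lt.1 hA
  have hlt : τ < m ^ 6 := by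
    by_contra hcon
    exact h3 ⟨hA', not_lt.1 hcon, hC'⟩
  rcases le_or_gt J l with hJ | hJ
  · have d1 : 2 ^ J ≤ 3 ^ l := le_trans (Nat.pow_le_pow_left (by norm_num) J)
      (Nat.pow_le_pow_right (by norm_num) hJ)
    have d2 : 2 ^ (n + J) ≤ 2 ^ n * 3 ^ l := by
      rw [pow_add]; exact Nat.mul_le_mul_left _ d1
    have d3 : 2 ^ (n + J) < 2 ^ (τ + J) := lt_of_le_of_lt d2 h4
    have d4 := (Nat.pow_lt_pow_iff_right (by norm_num : 1 < 2)).1 d3
    omega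
  · have e1 := (abs_le.1 hA').1
    have e2 : ((m ^ 4 + 3 * J : ℕ) : ℤ) < (n : ℤ) := by exact_mod_cast hmJ
    push_cast at e2
    have e3 : (l : ℤ) < J := by exact_mod_cast hJ
    have e4 : (n : ℤ) ≤ τ + J := by exact_mod_cast h5
    linarith

theorem half_up (hH : HoeStmt) (τ : ℕ) (u : ℝ) (hτ : 0 < τ) (hu : 0 ≤ u) :
    ∑ l ∈ Finset.range (τ + 1),
      (if u ≤ 2 * (l : ℝ) - τ then (τ.choose l : ℝ) / 2 ^ τ else 0)
      ≤ Real.exp (-(u ^ 2 / (2 * τ))) := by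
  have h := (hH τ u hτ hu).1
  rw [← Finset.sum_filter, ← Finset.sum_div, div_le_iff₀ (by positivity)]
  linarith [h]

theorem half_dn (hH : HoeStmt) (τ : ℕ) (u : ℝ) (hτ : 0 < τ) (hu : 0 ≤ u) :
    ∑ l ∈ Finset.range (τ + 1),
      (if u ≤ (τ : ℝ) - 2 * l then (τ.choose l : ℝ) / 2 ^ τ else 0)
      ≤ Real.exp (-(u ^ 2 / (2 * τ))) := by
  have h := (hH τ u hτ hu).2
  rw [← Finset.sum_filter, ← Finset.sum_div, div_le_iff₀ (by positivity)]
  linarith [h]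

open Classical in
theorem inA (hH : HoeStmt) (n m τ : ℕ) :
    ∑ l ∈ Finset.range (τ + 1), (if τ ≤ 256 * n ∧ (m : ℤ) ^ 4 < |2 * (l : ℤ) - τ| then
      (τ.choose l : ℝ) / 2 ^ τ else 0)
    ≤ if τ ≤ 256 * n then 2 * Real.exp (-((m : ℝ) ^ 8 / (512 * n))) else 0 := by
  by_cases hτ : τ ≤ 256 * n
  · rw [if_pos hτ]
    rcases Nat.eq_zero_or_pos τ with h0 | hpos
    · subst h0
      rw [zero_add, Finset.sum_range_one, if_neg]
      · positivity
      · rintro ⟨-, h⟩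
        have h1 : (0 : ℤ) ≤ (m : ℤ) ^ 4 := by positivity
        simp at h
        omega
    · have hterm : ∀ l ∈ Finset.range (τ + 1),
          (if τ ≤ 256 * n ∧ (m : ℤ) ^ 4 < |2 * (l : ℤ) - τ| then
            (τ.choose l : ℝ) / 2 ^ τ else 0)
          ≤ (if ((m : ℝ) ^ 4) ≤ 2 * (l : ℝ) - τ then (τ.choose l : ℝ) / 2 ^ τ else 0)
            + (if ((m : ℝ) ^ 4) ≤ (τ : ℝ) - 2 * l then (τ.choose l : ℝ) / 2 ^ τ else 0) := by
        intro l _
        have hp : (0 : ℝ) ≤ (τ.choose l : ℝ) / 2 ^ τ := by positivity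
        by_cases hc : τ ≤ 256 * n ∧ (m : ℤ) ^ 4 < |2 * (l : ℤ) - τ|
        · rw [if_pos hc]
          rcases lt_abs.1 hc.2 with h | h
          · have h1 : ((m : ℝ) ^ 4) ≤ 2 * (l : ℝ) - τ := by
              have : (((m : ℤ) ^ 4 : ℤ) : ℝ) < ((2 * (l : ℤ) - τ : ℤ) : ℝ) := by exact_mod_cast h
              push_cast at this
              exact this.le
            rw [if_pos h1]
            split_ifs <;> linarith
          · have h1 : ((m : ℝ) ^ 4) ≤ (τ : ℝ) - 2 * l := by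
              have : (((m : ℤ) ^ 4 : ℤ) : ℝ) < ((-(2 * (l : ℤ) - τ) : ℤ) : ℝ) := by exact_mod_cast h
              push_cast at this
              linarith
            rw [if_pos h1]
            split_ifs <;> linarith
        · rw [if_neg hc]
          split_ifs <;> linarith
      refine le_trans (Finset.sum_le_sum hterm) ?_
      rw [Finset.sum_add_distrib]
      have hu : (0 : ℝ) ≤ (m : ℝ) ^ 4 := by positivity
      have a1 := half_up hH τ _ hpos hu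
      have a2 := half_dn hH τ _ hpos hu
      have a3 : Real.exp (-(((m : ℝ) ^ 4) ^ 2 / (2 * τ))) ≤ Real.exp (-((m : ℝ) ^ 8 / (512 * n))) := by
        refine Real.exp_le_exp.2 (neg_le_neg ?_)
        have b1 : ((m : ℝ) ^ 4) ^ 2 = (m : ℝ) ^ 8 := by ring
        rw [b1]
        have b2 : (τ : ℝ) ≤ 256 * n := by exact_mod_cast hτ
        have b3 : (0 : ℝ) < τ := by exact_mod_cast hpos
        exact div_le_div_of_nonneg_left (by positivity) (by positivity) (by linarith)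
      linarith
  · rw [if_neg hτ]
    refine le_of_eq (Finset.sum_eq_zero fun l _ => if_neg fun h => hτ h.1)

open Classical in
theorem inC (hH : HoeStmt) (n J τ : ℕ) :
    ∑ l ∈ Finset.range (τ + 1), (if n ≤ τ + J ∧ 5 * τ < 8 * l then
      (τ.choose l : ℝ) / 2 ^ τ else 0)
    ≤ if n - J ≤ τ then Real.exp (-(1 / 32)) ^ τ else 0 := by
  by_cases hc : n - J ≤ τ
  · rw [if_pos hc]
    rcases Nat.eq_zero_or_pos τ with h0 | hpos
    · subst h0
      rw [zero_add, Finset.sum_range_one, if_neg]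
      · positivity
      · rintro ⟨-, h⟩
        omega
    · have hu : (0 : ℝ) ≤ (τ : ℝ) / 4 := by positivity
      have a1 := half_up hH τ _ hpos hu
      have hτ0 : (0 : ℝ) < τ := by exact_mod_cast hpos
      have a2 : Real.exp (-(((τ : ℝ) / 4) ^ 2 / (2 * τ))) = Real.exp (-(1 / 32)) ^ τ := by
        rw [← Real.exp_nat_mul]
        congr 1
        field_simp
        ring
      rw [← a2]
      refine le_trans (Finset.sum_le_sum fun l _ => ?_) a1
      have hp : (0 : ℝ) ≤ (τ.choose l : ℝ) / 2 ^ τ := by positivity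
      by_cases h : n ≤ τ + J ∧ 5 * τ < 8 * l
      · have h1 : (τ : ℝ) / 4 ≤ 2 * (l : ℝ) - τ := by
          have : (5 : ℝ) * τ < 8 * l := by exact_mod_cast h.2
          linarith
        rw [if_pos h, if_pos h1]
      · rw [if_neg h]
        split_ifs
        · exact hp
        · exact le_refl _
  · rw [if_neg hc]
    refine le_of_eq (Finset.sum_eq_zero fun l _ => if_neg fun h => hc (by omega))

theorem geo (r : ℝ) (h0 : 0 < r) (h1 : r < 1) (k t : ℕ) :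
    ∑ τ ∈ Finset.range t, (if k ≤ τ then r ^ τ else 0) ≤ r ^ k / (1 - r) := by
  have key : ∀ t : ℕ, (∑ τ ∈ Finset.range t, (if k ≤ τ then r ^ τ else 0)) * (1 - r)
      + r ^ (max k t) ≤ r ^ k := by
    intro t
    induction t with
    | zero => simp
    | succ t ih =>
      rw [Finset.sum_range_succ, add_mul]
      by_cases hk : k ≤ t
      · rw [if_pos hk]
        have e1 : max k t = t := max_eq_right hk
        have e2 : max k (t + 1) = t + 1 := max_eq_right (by omega)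
        rw [e1] at ih
        rw [e2, pow_succ]
        linarith
      · rw [if_neg hk]
        have e1 : max k t = k := max_eq_left (by omega)
        have e2 : max k (t + 1) = k := max_eq_left (by omega)
        rw [e1] at ih
        rw [e2]
        linarith
  rw [le_div_iff₀ (by linarith)]
  have h2 := key t
  have h3 : 0 < r ^ (max k t) := pow_pos h0 _
  linarith

theorem sumA (c : ℝ) (hc : 0 ≤ c) (N t : ℕ) :
    ∑ τ ∈ Finset.range t, (if τ ≤ N then c else 0) ≤ ((N : ℝ) + 1) * c := by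
  rw [← Finset.sum_filter, Finset.sum_const, nsmul_eq_mul]
  refine mul_le_mul_of_nonneg_right ?_ hc
  have h1 : ((Finset.range t).filter (fun τ => τ ≤ N)).card ≤ N + 1 := by
    have h2 : (Finset.range t).filter (fun τ => τ ≤ N) ⊆ Finset.range (N + 1) := by
      intro a ha
      rw [Finset.mem_filter] at ha
      exact Finset.mem_range.2 (by omega)
    have h3 := Finset.card_le_card h2
    rwa [Finset.card_range] at h3
  exact_mod_cast h1

theorem tailA (δ : ℝ) (hδ : 0 < δ) : ∃ n0 : ℕ, ∀ n : ℕ, n0 ≤ n →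
    (((256 * n : ℕ) : ℝ) + 1) * (2 * Real.exp (-((mn n : ℝ) ^ 8 / (512 * n)))) ≤ δ := by
  set C : ℝ := 514 * 64 * 24 * 32768 ^ 4 with hC
  obtain ⟨M, hM⟩ := exists_nat_ge (C / δ)
  refine ⟨(M + 1) ^ 6, fun n hn => ?_⟩
  have hm1 : M + 1 ≤ mn n := mn_ge _ _ hn
  have hlt := lt_mn n
  set m : ℕ := mn n with hmdef
  have hmpos : 1 ≤ m := by omega
  have hn1 : 1 ≤ n := le_trans (Nat.one_le_pow _ _ (by omega)) hn
  have hn64 : (n : ℝ) ≤ 64 * (m : ℝ) ^ 6 := by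
    have h1 : n ≤ (2 * m) ^ 6 := le_trans hlt.le (Nat.pow_le_pow_left (by omega) 6)
    have h2 : (n : ℝ) ≤ ((2 * m : ℕ) : ℝ) ^ 6 := by exact_mod_cast h1
    push_cast at h2
    nlinarith [h2]
  have hmR : (1 : ℝ) ≤ m := by exact_mod_cast hmpos
  have hnR : (1 : ℝ) ≤ n := by exact_mod_cast hn1
  set z : ℝ := (m : ℝ) ^ 2 / 32768 with hz
  have hz0 : 0 < z := by positivity
  have hy : z ≤ (m : ℝ) ^ 8 / (512 * n) := by
    rw [hz, le_div_iff₀ (by positivity), div_mul_eq_mul_div, div_le_iff₀ (by norm_num)]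
    have : (m : ℝ) ^ 2 * (512 * n) ≤ (m : ℝ) ^ 2 * (512 * (64 * (m : ℝ) ^ 6)) := by
      refine mul_le_mul_of_nonneg_left ?_ (by positivity)
      linarith
    calc (m : ℝ) ^ 2 * (512 * n) ≤ (m : ℝ) ^ 2 * (512 * (64 * (m : ℝ) ^ 6)) := this
      _ = (m : ℝ) ^ 8 * 32768 := by ring
  have he : Real.exp (-((m : ℝ) ^ 8 / (512 * n))) ≤ 24 / z ^ 4 := by
    have e1 : Real.exp (-((m : ℝ) ^ 8 / (512 * n))) ≤ Real.exp (-z) :=
      Real.exp_le_exp.2 (neg_le_neg hy)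
    have e2 := Real.pow_div_factorial_le_exp z hz0.le 4
    have e3 : ((Nat.factorial 4 : ℕ) : ℝ) = 24 := by norm_num [Nat.factorial]
    rw [e3] at e2
    have e4 : Real.exp (-z) ≤ 24 / z ^ 4 := by
      rw [Real.exp_neg, le_div_iff₀ (by positivity), inv_mul_le_iff₀ (Real.exp_pos _)]
      rw [div_le_iff₀ (by norm_num)] at e2
      exact e2
    exact le_trans e1 e4
  have hf : (((256 * n : ℕ) : ℝ) + 1) ≤ 257 * n := by push_cast; linarith
  have h5 : (((256 * n : ℕ) : ℝ) + 1) * (2 * Real.exp (-((m : ℝ) ^ 8 / (512 * n))))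
      ≤ (257 * (64 * (m : ℝ) ^ 6)) * (2 * (24 / z ^ 4)) := by
    refine mul_le_mul (by linarith) (by linarith) (by positivity) (by positivity)
  have h6 : (257 * (64 * (m : ℝ) ^ 6)) * (2 * (24 / z ^ 4)) = C / (m : ℝ) ^ 2 := by
    rw [hz, hC]
    field_simp
    ring
  have h7 : C / (m : ℝ) ^ 2 ≤ δ := by
    rw [div_le_iff₀ (by positivity)]
    have h8 : C ≤ M * δ := by rwa [div_le_iff₀ hδ] at hM
    have h9 : (M : ℝ) ≤ (m : ℝ) ^ 2 := by
      have : (M : ℝ) + 1 ≤ m := by exact_mod_cast hm1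
      nlinarith
    nlinarith
  rw [h6] at h5
  exact le_trans h5 h7

open Classical in
theorem shr (h1 : McrStmt) (hH : HoeStmt) : ShrStmt := by
  intro σ hσ ε hε
  obtain ⟨x1, hx1, hM⟩ := h1 σ hσ 1 one_pos
  -- J
  obtain ⟨J, hJ⟩ : ∃ J : ℕ, (2 * σ + 1) / 2 ^ J ≤ ε / 2 := by
    obtain ⟨J, hJ⟩ := pow_unbounded_of_one_lt ((2 * σ + 1) / (ε / 2)) (by norm_num : (1 : ℝ) < 2)
    refine ⟨J, ?_⟩
    rw [div_le_iff₀ (by positivity)]
    rw [div_lt_iff₀ (by positivity)] at hJ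
    linarith
  obtain ⟨n1, hn1⟩ := tailA (ε / 4) (by positivity)
  set r : ℝ := Real.exp (-(1 / 32)) with hr
  have hr0 : 0 < r := Real.exp_pos _
  have hr1 : r < 1 := by
    rw [hr, Real.exp_lt_one_iff]
    norm_num
  obtain ⟨n2, hn2⟩ : ∃ n2 : ℕ, ∀ k : ℕ, n2 ≤ k → r ^ k / (1 - r) ≤ ε / 4 := by
    obtain ⟨n2, hn2⟩ := exists_pow_lt_of_lt_one (show 0 < ε / 4 * (1 - r) by
      have : 0 < 1 - r := by linarith
      positivity) hr1
    refine ⟨n2, fun k hk => ?_⟩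
    rw [div_le_iff₀ (by linarith)]
    exact le_trans (pow_le_pow_of_le_one hr0.le hr1.le hk) hn2.le
  set n0 : ℕ := n1 + n2 + J + 2 ^ 6 + 4 * J + 1 with hn0
  refine ⟨max (x1 * 2 ^ J) (2 ^ n0), ?_, ?_⟩
  · exact le_trans (one_le_pow₀ (by norm_num)) (le_max_right _ _)
  intro x t hx ht
  have hxa : x1 * 2 ^ J ≤ x := le_trans (le_max_left _ _) hx
  have hxb : (2 : ℝ) ^ n0 ≤ x := le_trans (le_max_right _ _) hx
  have hxpos : 0 < x := lt_of_lt_of_le (by positivity) hxb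
  -- n, m
  set n : ℕ := Nat.log 2 ⌊x⌋₊ with hn
  have hfl : 2 ^ n0 ≤ ⌊x⌋₊ := by
    refine Nat.le_floor ?_
    push_cast
    exact hxb
  have hfl0 : ⌊x⌋₊ ≠ 0 := by
    have : 0 < 2 ^ n0 := by positivity
    omega
  have hnn : n0 ≤ n := Nat.le_log_of_pow_le (by norm_num) hfl
  have hx2 : (2 : ℝ) ^ n ≤ x := by
    have a1 : 2 ^ n ≤ ⌊x⌋₊ := Nat.pow_log_le_self 2 hfl0
    have a2 : ((2 ^ n : ℕ) : ℝ) ≤ (⌊x⌋₊ : ℝ) := by exact_mod_cast a1
    push_cast at a2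
    exact le_trans a2 (Nat.floor_le hxpos.le)
  have hx3 : x < (2 : ℝ) ^ (n + 1) := by
    have a1 : ⌊x⌋₊ < 2 ^ (n + 1) := Nat.lt_pow_succ_log_self (by norm_num) _
    have a2 : x < (⌊x⌋₊ : ℝ) + 1 := Nat.lt_floor_add_one x
    have a3 : ((⌊x⌋₊ + 1 : ℕ) : ℝ) ≤ ((2 ^ (n + 1) : ℕ) : ℝ) := by exact_mod_cast a1
    push_cast at a3
    linarith
  have hmx : mx x = mn n := rfl
  set m : ℕ := mn n with hm
  have hm6 : m ^ 6 ≤ n := mn_pow n
  have hm2 : 2 ≤ m := mn_ge 2 n (by omega)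
  have hmJ : m ^ 4 + 3 * J < n := by
    have a1 : 4 * m ^ 4 ≤ m ^ 6 := by
      have a2 : m ^ 6 = m ^ 2 * m ^ 4 := by ring
      have a3 : 4 ≤ m ^ 2 := by nlinarith
      rw [a2]
      exact Nat.mul_le_mul_right _ a3
    omega
  have hn1' : 1 ≤ n := by omega
  -- bound of the terms
  have hterm : ∀ τ l : ℕ,
      (if (2 : ℝ) ^ τ ≤ x * 3 ^ l ∧ ¬ TP (mx x) τ l then (τ.choose l : ℝ) / 3 ^ l else 0)
      ≤ (if (2 : ℝ) ^ τ ≤ (x / 2 ^ J) * 3 ^ l then (τ.choose l : ℝ) / 3 ^ l else 0)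
        + x * (if τ ≤ 256 * n ∧ (m : ℤ) ^ 4 < |2 * (l : ℤ) - τ| then
            (τ.choose l : ℝ) / 2 ^ τ else 0)
        + x * (if n ≤ τ + J ∧ 5 * τ < 8 * l then (τ.choose l : ℝ) / 2 ^ τ else 0) := by
    intro τ l
    have p3 : (0 : ℝ) ≤ (τ.choose l : ℝ) / 3 ^ l := by positivity
    have p2 : (0 : ℝ) ≤ (τ.choose l : ℝ) / 2 ^ τ := by positivity
    have q1 : (0 : ℝ) ≤ (if (2 : ℝ) ^ τ ≤ (x / 2 ^ J) * 3 ^ l then
        (τ.choose l : ℝ) / 3 ^ l else 0) := by split_ifs <;> linarith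
    have q2 : (0 : ℝ) ≤ x * (if τ ≤ 256 * n ∧ (m : ℤ) ^ 4 < |2 * (l : ℤ) - τ| then
            (τ.choose l : ℝ) / 2 ^ τ else 0) :=
      mul_nonneg hxpos.le (by split_ifs <;> linarith)
    have q3 : (0 : ℝ) ≤ x * (if n ≤ τ + J ∧ 5 * τ < 8 * l then
        (τ.choose l : ℝ) / 2 ^ τ else 0) :=
      mul_nonneg hxpos.le (by split_ifs <;> linarith)
    by_cases hc : (2 : ℝ) ^ τ ≤ x * 3 ^ l ∧ ¬ TP (mx x) τ l
    · rw [if_pos hc]
      by_cases hd : (2 : ℝ) ^ τ ≤ (x / 2 ^ J) * 3 ^ l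
      · rw [if_pos hd]
        linarith
      · have hb : (τ.choose l : ℝ) / 3 ^ l ≤ x * ((τ.choose l : ℝ) / 2 ^ τ) := by
          rw [div_le_iff₀ (by positivity)]
          have e1 : x * ((τ.choose l : ℝ) / 2 ^ τ) * 3 ^ l
              = (τ.choose l : ℝ) * ((x * 3 ^ l) / 2 ^ τ) := by ring
          rw [e1]
          have e2 : 1 ≤ (x * 3 ^ l) / (2 : ℝ) ^ τ := by
            rw [le_div_iff₀ (by positivity), one_mul]
            exact hc.1
          have e3 : (0 : ℝ) ≤ (τ.choose l : ℝ) := by positivity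
          nlinarith
        have hcase := cases_pair n m J τ l x hx2 hx3 hn1' hm6 hmJ hc.1 hd (by
          have := hc.2
          rwa [hmx] at this)
        rcases hcase with h | h
        · rw [if_pos h] at q2 ⊢
          linarith
        · rw [if_pos h] at q3 ⊢
          linarith
    · rw [if_neg hc]
      linarith
  have hsum := Finset.sum_le_sum (s := Finset.range t) fun τ _ =>
    Finset.sum_le_sum (s := Finset.range (τ + 1)) fun l _ => hterm τ l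
  refine le_trans hsum ?_
  simp only [Finset.sum_add_distrib, ← Finset.mul_sum]
  -- first part
  have hT : TM t (x / 2 ^ J) ≤ ε / 2 * x := by
    have a1 : x1 ≤ x / 2 ^ J := by rwa [le_div_iff₀ (by positivity)]
    have a2 : 60 * Real.log (x / 2 ^ J) ≤ t * Real.log 2 := by
      have a3 : Real.log (x / 2 ^ J) ≤ Real.log x := by
        refine Real.log_le_log (by positivity) ?_
        exact div_le_self hxpos.le (one_le_pow₀ (by norm_num))
      linarith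
    have a4 := (abs_le.1 (hM (x / 2 ^ J) t a1 a2)).2
    have a5 : (2 * σ + 1) * (x / 2 ^ J) ≤ ε / 2 * x := by
      have a6 : (2 * σ + 1) * (x / 2 ^ J) = (2 * σ + 1) / 2 ^ J * x := by ring
      rw [a6]
      exact mul_le_mul_of_nonneg_right hJ hxpos.le
    linarith
  have hTe : (∑ τ ∈ Finset.range t, ∑ l ∈ Finset.range (τ + 1),
      (if (2 : ℝ) ^ τ ≤ (x / 2 ^ J) * 3 ^ l then (τ.choose l : ℝ) / 3 ^ l else 0))
      = TM t (x / 2 ^ J) := by
    unfold TM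
    refine Finset.sum_congr rfl fun τ _ => Finset.sum_congr rfl fun l _ => ?_
    split_ifs <;> rfl
  have hA : (∑ τ ∈ Finset.range t, ∑ l ∈ Finset.range (τ + 1),
      (if τ ≤ 256 * n ∧ (m : ℤ) ^ 4 < |2 * (l : ℤ) - τ| then
            (τ.choose l : ℝ) / 2 ^ τ else 0)) ≤ ε / 4 := by
    refine le_trans (Finset.sum_le_sum fun τ _ => inA hH n m τ) ?_
    refine le_trans (sumA _ (by positivity) (256 * n) t) ?_
    exact hn1 n (by omega)
  have hCc : (∑ τ ∈ Finset.range t, ∑ l ∈ Finset.range (τ + 1),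
      (if n ≤ τ + J ∧ 5 * τ < 8 * l then (τ.choose l : ℝ) / 2 ^ τ else 0)) ≤ ε / 4 := by
    refine le_trans (Finset.sum_le_sum fun τ _ => inC hH n J τ) ?_
    refine le_trans (geo r hr0 hr1 (n - J) t) ?_
    exact hn2 _ (by omega)
  rw [hTe]
  have b1 := mul_le_mul_of_nonneg_left hA hxpos.le
  have b2 := mul_le_mul_of_nonneg_left hCc hxpos.le
  linarith

end Pool.Agent.WR4.H17
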